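import Pool.Agent.Helper5.Z2S.SMain

/-!
# The 2-sphere is not multiplicative (MP_bd7361_gt, Q1, negative answer)

There are compact metric spaces `X`, `Y` with continuous free involutions such that `X × Y` (with
the diagonal involution) maps equivariantly to the 2-sphere with the antipodal involution, but
neither `X` nor `Y` does.

The spaces are orbit spaces of `(S³)⁴`, `S³` the unit quaternions `(a,b) = a + b j`.
`X` is the quotient of `(S³)⁴ ∋ (p₀,p₁,p₂,p₃)` by
`(p₀ x⁻³y⁶, ± p₁ x, ± p₂ y, p₃ x²y)`, `x, y` in the circle, with the involution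
`(p₀, i p₁, i p₂, p₃)`; `Y` is the quotient of `(S³)⁴ ∋ (r₀,r₁,r₂,r₃)` by
`(t r₀ u⁻⁶v⁻³, ± r₁ u, ± r₂ v, r₃ u v⁻²)`, `t, u, v` in the circle, with the involution
`(j⁻¹ r₀, i r₁, i r₂, r₃)`.  The map is `F = g i g⁻¹` with
`g = p₀ G(p₁⁻¹r₁, p₂⁻¹r₂, p₃⁻¹r₃) r₀⁻¹`, where `G : (S³)³ → S³` is a torus-equivariant map
(module `GFinal`), and the non-existence statements are proved with partial degrees of lifts
`(S³)⁴ → S³` through the Hopf map (modules `Pool.Agent.Helper90.Deg.*`, `Helper90.Lift.*`).
-/

open Pool.Agent.Helper5.Z2S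

/-- **The 2-sphere is not multiplicative.** There are compact metric spaces `X`, `Y` with
continuous free involutions `μ`, `ν` such that the product `X × Y` with the diagonal involution
`(x, y) ↦ (μ x, ν y)` has a `ℤ₂`-map to the 2-sphere with the antipodal involution, but neither
`(X, μ)` nor `(Y, ν)` has a `ℤ₂`-map to it. -/
theorem Pool.Agent.Results.MP_bd7361_gt.SphereTwoNotMultiplicative.result :
    ∃ (X Y : Type) (_ : MetricSpace X) (_ : MetricSpace Y) (μ : X → X) (ν : Y → Y),
      CompactSpace X ∧ CompactSpace Y ∧ IsFreeInvolution μ ∧ IsFreeInvolution ν ∧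
        MapsTo (Prod.map μ ν) antipode ∧ ¬ MapsTo μ antipode ∧ ¬ MapsTo ν antipode :=
  notMultiplicative
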